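import Pool.Agent.Helper8.Sey.Goals

/-!
# Packet SEY-ASM (assembly)

The order by class, and by decreasing time inside a class, is the required cyclic order.
-/

namespace Pool.Agent.Helper38.Sey

open Pool.Agent.Helper8.Sey

open Classical in
/-- The position `p` lies in the open cyclic interval from `i` to `k`. -/
def Btw (i k p : ℕ) : Prop := (i < k ∧ i < p ∧ p < k) ∨ (k < i ∧ (i < p ∨ p < k))

theorem card_btw (n : ℕ) (V : Type) (S : Finset V) (f : V → ℕ) (i k : ℕ) (hi : i < n) (hk : k < n)
    (hik : i ≠ k) (hf : ∀ w ∈ S, f w < n) (hinj : ∀ w ∈ S, ∀ w' ∈ S, f w = f w' → w = w')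
    (hb : ∀ w ∈ S, Btw i k (f w)) : S.card < (k + n - i) % n := by
  have hd : (k + n - i) % n = if i < k then k - i else k + n - i := by
    split_ifs with h
    · have : k + n - i = (k - i) + n := by omega
      rw [this, Nat.add_mod_right, Nat.mod_eq_of_lt (by omega)]
    · exact Nat.mod_eq_of_lt (by omega)
  have hc : S.card ≤ (Finset.Ico 1 ((k + n - i) % n)).card := by
    apply Finset.card_le_card_of_injOn (fun w => if i < f w then f w - i else f w + n - i)
    · intro w hw
      have h1 := hf w hw
      have h2 := hb w hw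
      rw [hd]
      simp only [Finset.coe_Ico, Set.mem_Ico]
      unfold Btw at h2
      split_ifs <;> omega
    · intro w hw w' hw' h
      have h1 := hf w hw
      have h2 := hb w hw
      have h1' := hf w' hw'
      have h2' := hb w' hw'
      apply hinj w hw w' hw'
      unfold Btw at h2 h2'
      simp only at h
      split_ifs at h <;> omega
  rw [Nat.card_Ico] at hc
  have h0 : 0 < (k + n - i) % n := by
    rw [hd]
    split_ifs <;> omega
  omega

theorem key_lt (J a b s t : ℕ) (h : a < b) : a * (J + 1) + (J - s) < b * (J + 1) + (J - t) := by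
  have h1 : (a + 1) * (J + 1) ≤ b * (J + 1) := Nat.mul_le_mul_right _ h
  have h2 : (a + 1) * (J + 1) = a * (J + 1) + (J + 1) := by ring
  omega

open Classical in
theorem card_blocks {V : Type} [Fintype V] {N : ℕ} (C : V → ZMod N) (τ : V → ℕ) (m0 : ℕ)
    (T : Finset (ZMod N × ℕ)) (h : ∀ t ∈ T, m0 ≤ Nat.card {v // C v = t.1 ∧ τ v = t.2}) :
    T.card * m0 ≤ (Finset.univ.filter (fun w : V => (C w, τ w) ∈ T)).card := by
  have h1 : (Finset.univ.filter (fun w : V => (C w, τ w) ∈ T)).card =
      ∑ b ∈ T, ((Finset.univ.filter (fun w : V => (C w, τ w) ∈ T)).filter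
        (fun w => (C w, τ w) = b)).card := by
    apply Finset.card_eq_sum_card_fiberwise
    intro w hw
    simpa using hw
  rw [h1]
  have h2 : ∀ b ∈ T, m0 ≤ ((Finset.univ.filter (fun w : V => (C w, τ w) ∈ T)).filter
        (fun w => (C w, τ w) = b)).card := by
    intro b hb
    refine (h b hb).trans ?_
    rw [Nat.card_eq_fintype_card, Fintype.card_subtype]
    apply Finset.card_le_card
    intro w hw
    simp only [Finset.mem_filter, Finset.mem_univ, true_and] at hw ⊢
    have : (C w, τ w) = b := by
      rw [hw.1, hw.2]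
    exact ⟨by rw [this]; exact hb, this⟩
  calc T.card * m0 = ∑ _b ∈ T, m0 := by rw [Finset.sum_const, smul_eq_mul]
    _ ≤ _ := Finset.sum_le_sum h2

open Classical in
theorem goalASM : GoalASM := by
  intro V _ H N J m0 C τ hN hJ hτ hprop harc hblk
  haveI : NeZero N := ⟨by omega⟩
  haveI : Fact (1 < N) := ⟨by omega⟩
  set n := Fintype.card V with hn
  let key : V → ℕ := fun v => (C v).val * (J + 1) + (J - τ v)
  let e : V ≃ Fin n := Fintype.equivFin V
  let σ : Fin n ≃ V := (Tuple.sort (key ∘ e.symm)).trans e.symm
  have hmono : ∀ i k : Fin n, i ≤ k → key (σ i) ≤ key (σ k) := by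
    intro i k hik
    exact Tuple.monotone_sort (key ∘ e.symm) hik
  refine ⟨σ, ?_⟩
  intro i k hadj
  have hlt : ∀ p q : Fin n, key (σ p) < key (σ q) → p.val < q.val := by
    intro p q h
    by_contra hc
    exact absurd (hmono q p (not_lt.mp hc)) (not_le.mpr h)
  -- reduction to a block family
  have main : ∀ T : Finset (ZMod N × ℕ), J - 2 ≤ T.card → (∀ t ∈ T, t.2 < J) →
      (∀ w : V, (C w, τ w) ∈ T → Btw i.val k.val (σ.symm w).val) →
      (J - 2) * m0 < (k.val + n - i.val) % n := by
    intro T hT hTJ hb
    have h1 := card_blocks C τ m0 T (fun t ht => hblk t.1 t.2 (hTJ t ht))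
    have h2 : (J - 2) * m0 ≤ T.card * m0 := Nat.mul_le_mul_right _ hT
    have hik : i.val ≠ k.val := by
      intro h
      have : i = k := Fin.ext h
      rw [this] at hadj
      exact H.loopless.irrefl _ hadj
    have h3 := card_btw n V (Finset.univ.filter (fun w : V => (C w, τ w) ∈ T))
      (fun w => (σ.symm w).val) i.val k.val i.isLt k.isLt hik (fun w _ => (σ.symm w).isLt)
      (fun w _ w' _ h => σ.symm.injective (Fin.ext h))
      (fun w hw => hb w (by simpa using hw))
    exact lt_of_le_of_lt (h2.trans h1) h3
  have hCne : C (σ i) ≠ C (σ k) := hprop _ _ hadj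
  have hvne : (C (σ i)).val ≠ (C (σ k)).val := fun h => hCne (ZMod.val_injective N h)
  have hlt1 : ∀ w : V, key (σ i) < key w → i.val < (σ.symm w).val := by
    intro w h
    apply hlt
    simpa using h
  have hlt2 : ∀ w : V, key w < key (σ k) → (σ.symm w).val < k.val := by
    intro w h
    apply hlt
    simpa using h
  have hvlt : (C (σ i)).val < N := ZMod.val_lt _
  have hvlt' : (C (σ k)).val < N := ZMod.val_lt _
  have hsucc : (C (σ i) + 1).val = ((C (σ i)).val + 1) % N := by
    rw [ZMod.val_add, ZMod.val_one]
  have hik_lt : (C (σ i)).val < (C (σ k)).val → i.val < k.val := by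
    intro h
    exact hlt _ _ (key_lt J _ _ _ _ h)
  have hki_lt : (C (σ k)).val < (C (σ i)).val → k.val < i.val := by
    intro h
    exact hlt _ _ (key_lt J _ _ _ _ h)
  by_cases hc : C (σ k) = C (σ i) + 1
  · -- consecutive classes
    have harc' := harc _ _ hadj hc
    have hτu := hτ (σ i)
    have hτv := hτ (σ k)
    have hw1 : ∀ w : V, C w = C (σ i) → τ w < τ (σ i) → i.val < (σ.symm w).val := by
      intro w h1 h2
      apply hlt1
      show (C (σ i)).val * (J + 1) + (J - τ (σ i)) < (C w).val * (J + 1) + (J - τ w)
      rw [h1]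
      omega
    have hw2 : ∀ w : V, C w = C (σ k) → τ (σ k) < τ w → τ w < J → (σ.symm w).val < k.val := by
      intro w h1 h2 h3
      apply hlt2
      show (C w).val * (J + 1) + (J - τ w) < (C (σ k)).val * (J + 1) + (J - τ (σ k))
      rw [h1]
      omega
    have hw3 : (C (σ i)).val < (C (σ k)).val → ∀ w : V, C w = C (σ i) →
        (σ.symm w).val < k.val := by
      intro h w h1
      apply hlt2
      apply key_lt
      rw [h1]
      exact h
    have hw4 : (C (σ i)).val < (C (σ k)).val → ∀ w : V, C w = C (σ k) →
        i.val < (σ.symm w).val := by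
      intro h w h1
      apply hlt1
      apply key_lt
      rw [h1]
      exact h
    apply main (({C (σ i)} ×ˢ Finset.range (τ (σ i))) ∪
      ({C (σ k)} ×ˢ Finset.Ioo (τ (σ k)) J))
    · rw [Finset.card_union_of_disjoint, Finset.card_product, Finset.card_product,
        Finset.card_singleton, Finset.card_singleton, Finset.card_range, Nat.card_Ioo]
      · omega
      · rw [Finset.disjoint_left]
        intro t h1 h2
        simp only [Finset.mem_product, Finset.mem_singleton] at h1 h2
        exact hCne (h1.1.symm.trans h2.1)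
    · intro t ht
      simp only [Finset.mem_union, Finset.mem_product, Finset.mem_singleton, Finset.mem_range,
        Finset.mem_Ioo] at ht
      omega
    · intro w hw
      simp only [Finset.mem_union, Finset.mem_product, Finset.mem_singleton, Finset.mem_range,
        Finset.mem_Ioo] at hw
      unfold Btw
      rcases lt_or_gt_of_ne hvne with h | h
      · left
        refine ⟨hik_lt h, ?_⟩
        rcases hw with ⟨hw, hw'⟩ | ⟨hw, hw'⟩
        · exact ⟨hw1 w hw hw', hw3 h w hw⟩
        · exact ⟨hw4 h w hw, hw2 w hw hw'.1 hw'.2⟩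
      · right
        refine ⟨hki_lt h, ?_⟩
        rcases hw with ⟨hw, hw'⟩ | ⟨hw, hw'⟩
        · exact Or.inl (hw1 w hw hw')
        · exact Or.inr (hw2 w hw hw'.1 hw'.2)
  · -- the class after the class of `σ i` lies in between
    apply main ({C (σ i) + 1} ×ˢ Finset.range J)
    · rw [Finset.card_product, Finset.card_singleton, Finset.card_range]
      omega
    · intro t ht
      simp only [Finset.mem_product, Finset.mem_range] at ht
      exact ht.2
    · intro w hw
      simp only [Finset.mem_product, Finset.mem_singleton, Finset.mem_range] at hw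
      obtain ⟨hw, -⟩ := hw
      have hwv : (C w).val = ((C (σ i)).val + 1) % N := by rw [hw, hsucc]
      have hvc : (C (σ k)).val ≠ ((C (σ i)).val + 1) % N := by
        intro h
        apply hc
        apply ZMod.val_injective N
        rw [hsucc, h]
      unfold Btw
      by_cases hlast : (C (σ i)).val + 1 < N
      · rw [Nat.mod_eq_of_lt hlast] at hwv hvc
        have h1 : i.val < (σ.symm w).val := hlt1 w (key_lt J _ _ _ _ (by omega))
        rcases lt_or_gt_of_ne hvne with h | h
        · left
          exact ⟨hik_lt h, h1, hlt2 w (key_lt J _ _ _ _ (by omega))⟩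
        · right
          exact ⟨hki_lt h, Or.inl h1⟩
      · have hN' : (C (σ i)).val + 1 = N := by omega
        rw [hN', Nat.mod_self] at hwv hvc
        right
        exact ⟨hki_lt (by omega), Or.inr (hlt2 w (key_lt J _ _ _ _ (by omega)))⟩

end Pool.Agent.Helper38.Sey
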